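import Mathlib

set_option autoImplicit false

/-!
# MP_c39918_co, Q1: convex bodies are determined by the real Ehrhart functions of their translates
-/

namespace Pool.Agent.Results.MP_c39918_co.TranslatedEhrhart

/-- A convex body: a compact convex set with nonempty interior. -/
def IsConvexBody {d : ℕ} (K : Set (Fin d → ℝ)) : Prop :=
  IsCompact K ∧ Convex ℝ K ∧ (interior K).Nonempty

/-- The dilate `s K = {s x : x ∈ K}`. -/
def dilate {d : ℕ} (s : ℝ) (K : Set (Fin d → ℝ)) : Set (Fin d → ℝ) := (fun x => s • x) '' K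

/-- The translate `K + w = {x + w : x ∈ K}` by an integer vector. -/
def translate {d : ℕ} (K : Set (Fin d → ℝ)) (w : Fin d → ℤ) : Set (Fin d → ℝ) :=
  (fun x => x + fun i => (w i : ℝ)) '' K

/-- The real Ehrhart function `L_K(s) = #(s K ∩ ℤ^d)`. -/
noncomputable def L {d : ℕ} (K : Set (Fin d → ℝ)) (s : ℝ) : ℕ :=
  Set.ncard {m : Fin d → ℤ | (fun i => (m i : ℝ)) ∈ dilate s K}

variable {d : ℕ}

lemma mem_iff {K : Set (Fin d → ℝ)} {s : ℝ} (w m : Fin d → ℤ) :
    (fun i => (m i : ℝ)) ∈ dilate s (translate K w) ↔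
      (fun i => (m i : ℝ) - s * w i) ∈ dilate s K := by
  constructor
  · rintro ⟨_, ⟨x, hx, rfl⟩, h⟩
    refine ⟨x, hx, ?_⟩
    ext i
    have := congrFun h i
    simp only [Pi.smul_apply, Pi.add_apply, smul_eq_mul] at this ⊢
    linarith
  · rintro ⟨x, hx, h⟩
    refine ⟨_, ⟨x, hx, rfl⟩, ?_⟩
    ext i
    have := congrFun h i
    simp only [Pi.smul_apply, Pi.add_apply, smul_eq_mul] at this ⊢
    linarith

/-- at most one integral point -/
lemma unique_point {K H : Set (Fin d → ℝ)} {R s : ℝ} (hK : ∀ x ∈ K, ∀ i, |x i| ≤ R)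
    (hH : ∀ x ∈ H, ∀ i, |x i| ≤ R) (hs : 0 < s) (hsR : s * R < 1 / 2) (w m m' : Fin d → ℤ)
    (h : (fun i => (m i : ℝ) - s * w i) ∈ dilate s K)
    (h' : (fun i => (m' i : ℝ) - s * w i) ∈ dilate s H) : m = m' := by
  obtain ⟨x, hx, hxe⟩ := h
  obtain ⟨y, hy, hye⟩ := h'
  ext i
  have h1 := congrFun hxe i
  have h2 := congrFun hye i
  simp only [Pi.smul_apply, smul_eq_mul] at h1 h2
  have h3 := abs_le.1 (hK x hx i)
  have h4 := abs_le.1 (hH y hy i)
  have h5 : |(m i : ℝ) - m' i| < 1 := by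
    have : (m i : ℝ) - m' i = s * x i - s * y i := by linarith
    rw [this, abs_lt]
    constructor <;> nlinarith
  have h6 : |m i - m' i| < 1 := by exact_mod_cast h5
  have := Int.abs_lt_one_iff.1 h6
  omega

lemma transfer {K H : Set (Fin d → ℝ)} {R s : ℝ} (hK : ∀ x ∈ K, ∀ i, |x i| ≤ R)
    (hH : ∀ x ∈ H, ∀ i, |x i| ≤ R) (hs : 0 < s) (hsR : s * R < 1 / 2) (w m : Fin d → ℤ)
    (hL : L (translate K w) s = L (translate H w) s)
    (h : (fun i => (m i : ℝ) - s * w i) ∈ dilate s K) :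
    (fun i => (m i : ℝ) - s * w i) ∈ dilate s H := by
  have h1 : {m : Fin d → ℤ | (fun i => (m i : ℝ)) ∈ dilate s (translate K w)} = {m} := by
    ext m'
    rw [Set.mem_ofPred_eq, mem_iff, Set.mem_singleton_iff]
    constructor
    · intro h'
      exact unique_point hK hK hs hsR w m' m h' h
    · rintro rfl; exact h
  have h2 : L (translate H w) s = 1 := by
    rw [← hL, L, h1, Set.ncard_singleton]
  obtain ⟨m', hm'⟩ := Set.ncard_eq_one.1 h2
  have h3 : (fun i => (m' i : ℝ) - s * w i) ∈ dilate s H := by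
    rw [← mem_iff]
    have : m' ∈ {m : Fin d → ℤ | (fun i => (m i : ℝ)) ∈ dilate s (translate H w)} := by
      rw [hm']; exact Set.mem_singleton m'
    exact this
  rw [unique_point hK hH hs hsR w m m' h h3]
  exact h3

/-- the points `m - s w` are dense -/
lemma dense_points {s : ℝ} (hs : Irrational s) (x : Fin d → ℝ) {ε : ℝ} (hε : 0 < ε) :
    ∃ m w : Fin d → ℤ, dist (fun i => (m i : ℝ) - s * w i) x < ε := by
  have hd : Dense (AddSubgroup.closure {1, s} : Set ℝ) := by
    have := (dense_addSubgroupClosure_pair_iff (a := s) (b := 1)).2 (by simpa using hs)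
    rwa [Set.pair_comm] at this
  have hone : ∀ y : ℝ, ∃ a b : ℤ, |((a : ℝ) - s * b) - y| < ε := by
    intro y
    obtain ⟨z, hz, hzy⟩ := Metric.dense_iff.1 hd y ε hε
    rw [SetLike.mem_coe, AddSubgroup.mem_closure_pair] at hzy
    obtain ⟨a, b, hab⟩ := hzy
    refine ⟨a, -b, ?_⟩
    rw [Metric.mem_ball, Real.dist_eq] at hz
    have : ((a : ℝ) - s * ((-b : ℤ) : ℝ)) = z := by
      rw [← hab]
      simp only [zsmul_eq_mul, mul_one]
      push_cast
      ring
    rw [this]
    exact hz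
  choose a b hab using hone
  refine ⟨fun i => a (x i), fun i => b (x i), ?_⟩
  rw [dist_pi_lt_iff hε]
  intro i
  rw [Real.dist_eq]
  exact hab (x i)

lemma subset_of {K H : Set (Fin d → ℝ)} (hKb : IsConvexBody K) (hHb : IsConvexBody H) {R s : ℝ}
    (hK : ∀ x ∈ K, ∀ i, |x i| ≤ R) (hH : ∀ x ∈ H, ∀ i, |x i| ≤ R) (hs : 0 < s)
    (hsR : s * R < 1 / 2) (hirr : Irrational s)
    (hL : ∀ w : Fin d → ℤ, L (translate K w) s = L (translate H w) s) : K ⊆ H := by
  have hHc : IsClosed H := hHb.1.isClosed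
  have hint : interior K ⊆ H := by
    intro x hx
    rw [← hHc.closure_eq]
    rw [Metric.mem_closure_iff]
    intro ε hε
    obtain ⟨δ, hδ, hball⟩ := Metric.isOpen_iff.1 isOpen_interior x hx
    obtain ⟨m, w, hmw⟩ := dense_points hirr (s • x) (show 0 < s * min ε δ by positivity)
    set z : Fin d → ℝ := fun i => (m i : ℝ) - s * w i with hz
    have hdist : dist (s⁻¹ • z) x < min ε δ := by
      have h1 : x = s⁻¹ • (s • x) := by rw [smul_smul, inv_mul_cancel₀ hs.ne', one_smul]
      rw [h1, dist_smul₀, Real.norm_eq_abs, abs_of_pos (inv_pos.2 hs), inv_mul_lt_iff₀ hs]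
      exact hmw
    have hzK : z ∈ dilate s K := by
      refine ⟨s⁻¹ • z, ?_, ?_⟩
      · apply interior_subset
        apply hball
        rw [Metric.mem_ball]
        exact hdist.trans_le (min_le_right _ _)
      · simp only [smul_smul, mul_inv_cancel₀ hs.ne', one_smul]
    obtain ⟨y, hy, hye⟩ := transfer hK hH hs hsR w m (hL w) hzK
    refine ⟨y, hy, ?_⟩
    have : y = s⁻¹ • z := by
      rw [hz, ← hye]
      simp only [smul_smul, inv_mul_cancel₀ hs.ne', one_smul]
    rw [this, dist_comm]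
    exact hdist.trans_le (min_le_left _ _)
  have hcl : closure (interior K) = K := by
    rw [hKb.2.1.closure_interior_eq_closure_of_nonempty_interior hKb.2.2, hKb.1.isClosed.closure_eq]
  rw [← hcl]
  exact hHc.closure_subset_iff.2 hint

/-- **MP_c39918_co, Q1: proved.**  Two convex bodies `K`, `H` with `L_{K+w}(s) = L_{H+w}(s)` for all
real `s > 0` and all integer vectors `w` are equal.  In fact one single (irrational, small) `s` is
enough. -/
theorem result (d : ℕ) (K H : Set (Fin d → ℝ)) (hK : IsConvexBody K) (hH : IsConvexBody H) :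
    ((∀ s : ℝ, 0 < s → ∀ w : Fin d → ℤ, L (translate K w) s = L (translate H w) s) → K = H) ∧
    ∃ s₀ : ℝ, 0 < s₀ ∧ ∀ s : ℝ, 0 < s → s < s₀ → Irrational s →
      (∀ w : Fin d → ℤ, L (translate K w) s = L (translate H w) s) → K = H := by
  obtain ⟨R1, hR1⟩ := hK.1.isBounded.exists_norm_le
  obtain ⟨R2, hR2⟩ := hH.1.isBounded.exists_norm_le
  set R : ℝ := max (max R1 R2) 1 with hR
  have hRpos : 0 < R := lt_of_lt_of_le one_pos (le_max_right _ _)
  have hKR : ∀ x ∈ K, ∀ i, |x i| ≤ R := fun x hx i =>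
    ((norm_le_pi_norm x i).trans (hR1 x hx)).trans ((le_max_left _ _).trans (le_max_left _ _))
  have hHR : ∀ x ∈ H, ∀ i, |x i| ≤ R := fun x hx i =>
    ((norm_le_pi_norm x i).trans (hR2 x hx)).trans ((le_max_right _ _).trans (le_max_left _ _))
  have hmain : ∀ s : ℝ, 0 < s → s < 1 / (2 * R) → Irrational s →
      (∀ w : Fin d → ℤ, L (translate K w) s = L (translate H w) s) → K = H := by
    intro s hs hs' hirr hL
    have hsR : s * R < 1 / 2 := by
      rw [lt_div_iff₀ (by positivity)] at hs'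
      linarith
    exact Set.Subset.antisymm (subset_of hK hH hKR hHR hs hsR hirr hL)
      (subset_of hH hK hHR hKR hs hsR hirr fun w => (hL w).symm)
  refine ⟨?_, 1 / (2 * R), by positivity, hmain⟩
  intro hL
  obtain ⟨s, h1, h2, h3⟩ := exists_irrational_btwn (show (0 : ℝ) < 1 / (2 * R) by positivity)
  exact hmain s h2 h3 h1 (hL s h2)

end Pool.Agent.Results.MP_c39918_co.TranslatedEhrhart
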